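import Mathlib

/-! Holomorphic map germs: unfoldings, stability, finite `A_e`-codimension. -/

open Filter Topology

namespace Pool.Agent.MP_7e71a7_ag

/-- Complex Euclidean space. -/
abbrev Cn (n : ℕ) : Type := EuclideanSpace ℂ (Fin n)

variable {E F : Type} [NormedAddCommGroup E] [NormedSpace ℂ E] [NormedAddCommGroup F]
  [NormedSpace ℂ F]

/-- `(x, s) ↦ (G (x, s), s)` is a holomorphic `d`-parameter unfolding of the germ of `g` at the
points of `S`. -/
def IsUnfolding (g : E → F) (S : Set E) {d : ℕ} (G : E × Cn d → F) : Prop :=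
  ∀ x ∈ S, AnalyticAt ℂ G (x, 0) ∧ ∀ᶠ z in 𝓝 x, G (z, 0) = g z

/-- The unfolding `G` of the germ `g : (E, S) → (F, y)` is trivial: it is obtained from the
constant unfolding by unfoldings of the identity in the source and in the target. -/
def IsTrivial (g : E → F) (S : Set E) (y : F) {d : ℕ} (G : E × Cn d → F) : Prop :=
  ∃ (Φ : E × Cn d → E) (Ψ : F × Cn d → F), IsUnfolding id S Φ ∧ IsUnfolding id {y} Ψ ∧
    ∀ x ∈ S, ∀ᶠ q in 𝓝 ((x, 0) : E × Cn d), G q = Ψ (g (Φ q), q.2)

/-- The germ `g : (E, S) → (F, y)` is stable: every unfolding is trivial. -/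
def IsStable (g : E → F) (S : Set E) (y : F) : Prop :=
  ∀ (d : ℕ) (G : E × Cn d → F), IsUnfolding g S G → IsTrivial g S y G

/-- The germ `f : (E, 0) → (F, 0)` has finite `A_e`-codimension: finitely many vector fields along
`f` span `θ(f)` modulo `tf(θ_E) + ωf(θ_F)`. -/
def IsAFinite (f : E → F) : Prop :=
  ∃ (k : ℕ) (θ : Fin k → E → F), (∀ i, AnalyticAt ℂ (θ i) 0) ∧
    ∀ v : E → F, AnalyticAt ℂ v 0 → ∃ (c : Fin k → ℂ) (ξ : E → E) (η : F → F),
      AnalyticAt ℂ ξ 0 ∧ AnalyticAt ℂ η 0 ∧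
        ∀ᶠ x in 𝓝 0, v x = ∑ i, c i • θ i x + fderiv ℂ f x (ξ x) + η (f x)

/-- The part of the preimage under `g` of the closed `ε`-ball that lies in the representative's
domain, the open `ρ`-ball. -/
def source (g : E → F) (ρ ε : ℝ) : Set E := {x | ‖x‖ < ρ ∧ ‖g x‖ ≤ ε}

/-- `g` restricted to `U` is locally stable: for every `y` the germ of `g` at the whole fibre
of `y` in `U` is stable. -/
def IsLocallyStable (g : E → F) (U : Set E) : Prop :=
  ∀ y, IsStable g {x | x ∈ U ∧ g x = y} y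

end Pool.Agent.MP_7e71a7_ag
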